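import Pool.Agent.Helper10.QCM.M_APX
import Pool.Agent.Helper11.QCM.M_MTR
import Pool.Agent.Helper11.QCM.M_RFL
import Pool.Agent.Helper14.QCM.M_JCN
import Pool.Agent.Helper16.QC.M_HLQ
import Pool.Agent.Helper16.QCM.M_CUT
import Pool.Agent.Helper16.QCM.M_LCV
import Pool.Agent.Helper16.QCM.M_SQ2
import Pool.Agent.Helper22.QCM.M_RCH
import Pool.Agent.Helper24.QCM.M_TOR
import Pool.Agent.Helper26.QCM.M_ELL
import Pool.Agent.Helper28.QC.M_EQS
import Pool.Agent.Helper28.QCM.M_RP2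
import Pool.Agent.Helper30.QCM.M_SMO
import Pool.Agent.Helper30.QCM.M_STK
import Pool.Agent.Helper32.QC.M_BRG
import Pool.Agent.Helper32.QCM.M_IF8
import Pool.Agent.Helper32.QCM.M_NQD
import Pool.Agent.Helper32.QCM.M_SYY
import Pool.Agent.Helper33.QCM.M_CPL
import Pool.Agent.Helper34.QC.M_GRW
import Pool.Agent.Helper34.QC.M_MOD
import Pool.Agent.Helper36.QCM.M_IF6
import Pool.Agent.Helper36.QCM.M_INB
import Pool.Agent.Helper37.QCM.M_LWD
import Pool.Agent.Helper37.QCM.M_RE2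
import Pool.Agent.Helper38.QCM.M_LWT
import Pool.Agent.Helper39.QCM.M_IF2
import Pool.Agent.Helper39.QCM.M_ITW
import Pool.Agent.Helper39.QCM.M_SQT
import Pool.Agent.Helper40.QCM.M_IBC
import Pool.Agent.Helper40.QCM.M_LGC
import Pool.Agent.Helper42.QCM.M_ENB
import Pool.Agent.Helper45.QCM.M_AFF
import Pool.Agent.Helper45.QCM.M_FA0
import Pool.Agent.Helper45.QCM.M_LIM
import Pool.Agent.Helper45.QCM.M_MO1
import Pool.Agent.Helper45.QCM.M_MO2
import Pool.Agent.Helper47.QCM.M_RP1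
import Pool.Agent.Helper5.QCM.M_RPX
import Pool.Agent.Helper52.QC.M_HPS
import Pool.Agent.Helper52.QCM.M_RMV
import Pool.Agent.Helper6.QC.M_KBU
import Pool.Agent.Helper60.QC.M_PBL
import Pool.Agent.Helper60.QC.M_QIN
import Pool.Agent.Helper62.QCM.M_CVX
import Pool.Agent.Helper62.QCM.M_LOC
import Pool.Agent.Helper63.QC.M_KBH
import Pool.Agent.Helper63.QC.M_KBS
import Pool.Agent.Helper64.QC.M_MON
import Pool.Agent.Helper64.QCM.M_POX
import Pool.Agent.Helper66.QCM.M_IF9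
import Pool.Agent.Helper67.QCM.M_PSH
import Pool.Agent.Helper68.QCM.M_EQX
import Pool.Agent.Helper68.QCM.M_EXS
import Pool.Agent.Helper68.QCM.M_IF1
import Pool.Agent.Helper68.QCM.M_IF4
import Pool.Agent.Helper68.QCM.M_LQD
import Pool.Agent.Helper7.QCM.M_IF7
import Pool.Agent.Helper70.QCM.M_CHR
import Pool.Agent.Helper70.QCM.M_IBP
import Pool.Agent.Helper70.QCM.M_PRW
import Pool.Agent.Helper70.QCM.M_WSL
import Pool.Agent.Helper72.QCM.M_LBE
import Pool.Agent.Helper72.QCM.M_UNG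
import Pool.Agent.Helper73.QCM.M_WEY
import Pool.Agent.Helper74.QCM.M_SPH
import Pool.Agent.Helper79.QCM.M_TRI
import Pool.Agent.Helper8.QCM.M_HOA
import Pool.Agent.Helper8.QCM.M_PRX
import Pool.Agent.Helper8.QCM.M_STI
import Pool.Agent.Helper8.QCM.M_SYX
import Pool.Agent.Helper82.QCM.M_JIB
import Pool.Agent.Helper82.QCM.M_UNW
import Pool.Agent.Helper93.QC.M_QSD
import Pool.Agent.Helper93.QCM.M_NUX
import Pool.Agent.Helper94.QCM.M_IF3
import Pool.Agent.Helper94.QCM.M_IF5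
import Pool.Agent.Helper95.QC.M_LEN
import Pool.Agent.Helper95.QCM.M_LJA
import Pool.Agent.Helper95.QCM.M_LKK
import Pool.Agent.Helper95.QCM.M_WKL
import Pool.Agent.Helper98.QCM.M_FVM
import Pool.Agent.Helper99.QCM.M_EQM
import Pool.Agent.Helper99.QCM.M_UNX

/-!
# PART M of project QD: the assembled interface

Every interface statement `StX` of `Pool/Agent/Helper68/QC/Int.lean` (and the module statements) as a
theorem `Pool.Agent.Helper68.QCA.X : StX`.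
-/

open Pool.Agent.Helper68.QC
open MeasureTheory

namespace Pool.Agent.Helper68.QCA

theorem MO1 : StMO1 := Pool.Agent.Helper45.QCM.pMO1
theorem MO2 : StMO2 := Pool.Agent.Helper45.QCM.pMO2 MO1
theorem CUT : StCUT := Pool.Agent.Helper16.QCM.pCUT
theorem APX : StAPX := Pool.Agent.Helper10.QCM.pAPX MO1 MO2 CUT
theorem UNW : StUNW := Pool.Agent.Helper82.QCM.pUNW
theorem TRI : StTRI := Pool.Agent.Helper79.QCM.pTRI
theorem IBP : StIBP := Pool.Agent.Helper70.QCM.pIBP APX TRI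
theorem CHR : StCHR := Pool.Agent.Helper70.QCM.pCHR APX TRI
theorem IBC : StIBC := Pool.Agent.Helper40.QCM.pIBC IBP UNW
theorem PRW : StPRW := Pool.Agent.Helper70.QCM.pPRW
theorem WEY : StWEY := Pool.Agent.Helper73.QCM.pWEY MO1 MO2
theorem SMO : StSMO := Pool.Agent.Helper30.QCM.pSMO MO1 MO2
theorem QIN : StQIN := Pool.Agent.Helper60.QC.pQIN
theorem QSD : StQSD := Pool.Agent.Helper93.QC.pQSD
theorem LEN : StLEN := Pool.Agent.Helper95.QC.pLEN
theorem MON : StMON := Pool.Agent.Helper64.QC.pMON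
theorem MOD : StMOD := Pool.Agent.Helper34.QC.pMOD LEN MON
theorem GRW : StGRW := Pool.Agent.Helper34.QC.pGRW QIN LEN MON
theorem EQS : StEQS := Pool.Agent.Helper28.QC.pEQS QIN MOD GRW
theorem HLQ : StHLQ := Pool.Agent.Helper16.QC.pHLQ QIN MOD GRW
theorem PBL : StPBL := Pool.Agent.Helper60.QC.pPBL
theorem KBU : StKBU := Pool.Agent.Helper6.QC.pKBU
theorem KBS : StKBS := Pool.Agent.Helper63.QC.pKBS
theorem BRG : StBRG := Pool.Agent.Helper32.QC.pBRG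
theorem KBH : StKBH := Pool.Agent.Helper63.QC.pKBH KBU PBL
theorem HPS : StHPS := Pool.Agent.Helper52.QC.pHPS KBS BRG KBH
theorem WKL : StWKL := Pool.Agent.Helper95.QCM.pWKL
theorem LWD : StLWD := Pool.Agent.Helper37.QCM.pLWD
theorem JIB : StJIB := Pool.Agent.Helper82.QCM.pJIB IBP CHR
theorem LJA : StLJA := Pool.Agent.Helper95.QCM.pLJA JIB MO1 MO2
theorem LCV : StLCV := Pool.Agent.Helper16.QCM.pLCV LJA
theorem LKK : StLKK := Pool.Agent.Helper95.QCM.pLKK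
theorem ENB : StENB := Pool.Agent.Helper42.QCM.pENB
theorem LQD : StLQD := Pool.Agent.Helper68.QCM.pLQD WKL LWD LJA LCV LKK ENB
theorem LBE : StLBE := Pool.Agent.Helper72.QCM.pLBE
theorem LIM : StLIM := Pool.Agent.Helper45.QCM.pLIM
theorem EXS : StEXS := Pool.Agent.Helper68.QCM.pEXS SMO HPS EQS LIM QSD QIN LQD LBE
theorem FA0 : StFA0 := Pool.Agent.Helper45.QCM.pFA0 CHR IBC WEY
theorem AFF : StAFF := Pool.Agent.Helper45.QCM.pAFF
theorem UNX : StUNX := Pool.Agent.Helper99.QCM.pUNX FA0 AFF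
theorem NQD : StNQD := Pool.Agent.Helper32.QCM.pNQD EXS UNX
theorem CVX : StCVX := Pool.Agent.Helper62.QCM.pCVX
theorem NUX : StNUX := Pool.Agent.Helper93.QCM.pNUX CVX
theorem PSH : StPSH := Pool.Agent.Helper67.QCM.pPSH CHR IBC CVX NUX
theorem ITW : StITW := Pool.Agent.Helper39.QCM.pITW
theorem SQT : StSQT := Pool.Agent.Helper39.QCM.pSQT
theorem ELL : StELL := Pool.Agent.Helper26.QCM.pELL MO1 MO2 UNW
theorem RMV : StRMV := Pool.Agent.Helper52.QCM.pRMV MO1 MO2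
theorem INB : StINB := Pool.Agent.Helper36.QCM.pINB
theorem RFL : StRFL := Pool.Agent.Helper11.QCM.pRFL
theorem CPL : StCPL := Pool.Agent.Helper33.QCM.pCPL

theorem EX : StEX := (Pool.Agent.Helper68.QCM.pIF1 NQD FA0 UNX).1
theorem FAC : StFAC := (Pool.Agent.Helper68.QCM.pIF1 NQD FA0 UNX).2.1
theorem UNI : StUNI := (Pool.Agent.Helper68.QCM.pIF1 NQD FA0 UNX).2.2
theorem CNF : StCNF := Pool.Agent.Helper39.QCM.pIF2 EX WEY
theorem POS : StPOS := Pool.Agent.Helper64.QCM.pPOX CHR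
theorem PRE : StPRE := Pool.Agent.Helper8.QCM.pPRX PRW
theorem CVM : StCVM := (Pool.Agent.Helper32.QCM.pIF8 NQD CVX NUX).1
theorem NUL : StNUL := (Pool.Agent.Helper32.QCM.pIF8 NQD CVX NUX).2
theorem CMP : StCMP := (Pool.Agent.Helper66.QCM.pIF9 NQD CVM NUL PSH UNI).1
theorem INV : StINV := (Pool.Agent.Helper66.QCM.pIF9 NQD CVM NUL PSH UNI).2
theorem EQV : StEQV := Pool.Agent.Helper68.QCM.pEQX EX FAC PRE AFF
theorem SYR : StSYR := Pool.Agent.Helper8.QCM.pSYX EX UNI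
theorem SYC : StSYC := Pool.Agent.Helper32.QCM.pSYY EX UNI PRE POS
theorem WSL : StWSL := Pool.Agent.Helper70.QCM.pWSL RMV UNI

theorem GRO : StGRO := (Pool.Agent.Helper94.QCM.pIF3 NQD EQS HLQ).1
theorem EQC : StEQC := (Pool.Agent.Helper94.QCM.pIF3 NQD EQS HLQ).2.1
theorem HLD : StHLD := (Pool.Agent.Helper94.QCM.pIF3 NQD EQS HLQ).2.2
theorem CLO : StCLO := Pool.Agent.Helper68.QCM.pIF4 NQD (GRO) (EQC) LIM LQD UNI
theorem CON : StCON := Pool.Agent.Helper94.QCM.pIF5 NQD (GRO) (EQC) LIM LQD LBE UNI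
theorem HOAff : HolAff := Pool.Agent.Helper8.QCM.pHOA SMO HPS UNI (GRO) (CON) PBL
theorem LIP : StLIP := (Pool.Agent.Helper36.QCM.pIF6 (HOAff) (GRO) UNI).1
theorem NID : StNID := (Pool.Agent.Helper36.QCM.pIF6 (HOAff) (GRO) UNI).2
theorem HOL : StHOL := Pool.Agent.Helper7.QCM.pIF7 (HOAff) (LIP)
theorem L1 : Lift1 := Pool.Agent.Helper47.QCM.pRP1 EQV (HOL) ITW SQT EX
theorem REP : StREP := Pool.Agent.Helper5.QCM.pRPX (L1) ITW

/-! Part 6: annuli, tori, first variation. -/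

theorem LOC : StLOC := Pool.Agent.Helper62.QCM.pLOC
theorem RCH : StRCH := Pool.Agent.Helper22.QCM.pRCH
theorem UNG : StUNG := Pool.Agent.Helper72.QCM.pUNG
theorem LGC : LogC := Pool.Agent.Helper40.QCM.pLGC EX UNI HOL EQC GRO
theorem EQM : EqvL := Pool.Agent.Helper99.QCM.pEQM EX UNI PRE POS
theorem LWT : StLWT := Pool.Agent.Helper38.QCM.pLWT LOC CHR
theorem STK : Stokes := Pool.Agent.Helper30.QCM.pSTK RCH UNG LWT UNW PRW EX CVM LGC EQM
theorem STI : StSTI := Pool.Agent.Helper8.QCM.pSTI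
theorem FVM : ∀ μ : ℂ → ℂ, Bel 1 μ → ∀ l : ℂ, 0 < l.re → InvL l μ →
    HasDerivAt (fun t : ℂ => nq (fun y => t * μ y) (Complex.exp l))
      (Complex.exp l * ((Real.pi : ℂ)⁻¹ * ∫ ξ in ann l, μ ξ / ξ ^ 2)) 0 :=
  Pool.Agent.Helper98.QCM.pFVM STK NID EX
theorem SPH : Sphere := Pool.Agent.Helper74.QCM.pSPH EX UNI PRE POS
theorem MTR : StMTR := Pool.Agent.Helper11.QCM.pMTR
theorem TOR : ∀ k, 0 ≤ k → k < 1 → ∀ μ, Bel k μ → ∀ (A B : SL) (a b l : ℂ), InvB A μ →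
    Intw A B (nq μ) → Mult A a b l → 0 < l.re → ∃ l' : ℂ, Mult B (nq μ a) (nq μ b) l' ∧ 0 < l'.re ∧
      Real.pi * (1 - k ^ 2) * ‖l' - l‖ ^ 2 ≤
        2 * l'.re * ∫ ξ in {ξ : ℂ | 1 ≤ ‖crd a b ξ‖ ∧ ‖crd a b ξ‖ < Real.exp l.re},
          ‖μ ξ‖ ^ 2 * (‖a - b‖ ^ 2 / (‖ξ - a‖ ^ 2 * ‖ξ - b‖ ^ 2)) :=
  Pool.Agent.Helper24.QCM.pTOR SPH STK STI

/-! Part 7: two parameters. -/

theorem JCN : JC2 := Pool.Agent.Helper14.QCM.pJCN HOL LIP
theorem SQ2 : StSQ2 := Pool.Agent.Helper16.QCM.pSQ2 SQT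
theorem L2P : Lift2 := Pool.Agent.Helper28.QCM.pRP2 EQV JCN ITW SQ2 EX
theorem REP2 : Rep2 := Pool.Agent.Helper37.QCM.pRE2 L2P ITW

end Pool.Agent.Helper68.QCA
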